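import Mathlib

/-!
# Packed arithmetic of truncated power series modulo `M`

A truncated power series with coefficients `a i < M` is stored as the single natural number
`∑_{i < 2^K} a i * 2^(b i)`; the kernel multiplies such numbers with GMP.
-/

set_option autoImplicit false

namespace Q279.Pack

open PowerSeries

/-- the packed number with digits `a i`, `i < n` -/
def P (b : ℕ) (a : ℕ → ℕ) (n : ℕ) : ℕ := ∑ i ∈ Finset.range n, a i * 2 ^ (b * i)

theorem P_zero (b : ℕ) (a : ℕ → ℕ) : P b a 0 = 0 := by simp [P]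

theorem P_succ (b : ℕ) (a : ℕ → ℕ) (n : ℕ) : P b a (n + 1) = P b a n + a n * 2 ^ (b * n) := by
  simp [P, Finset.sum_range_succ]

theorem P_add (b : ℕ) (a : ℕ → ℕ) (m n : ℕ) :
    P b a (m + n) = P b a m + P b (fun i => a (m + i)) n * 2 ^ (b * m) := by
  unfold P
  rw [Finset.sum_range_add, Finset.sum_mul]
  congr 1
  refine Finset.sum_congr rfl fun i _ => ?_
  rw [mul_assoc, ← pow_add]
  congr 2
  ring

theorem P_congr {b : ℕ} {a a' : ℕ → ℕ} {n : ℕ} (h : ∀ i < n, a i = a' i) : P b a n = P b a' n :=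
  Finset.sum_congr rfl fun i hi => by rw [h i (Finset.mem_range.1 hi)]

theorem P_lt {b : ℕ} {a : ℕ → ℕ} (ha : ∀ i, a i < 2 ^ b) (n : ℕ) : P b a n < 2 ^ (b * n) := by
  induction n with
  | zero => simp [P]
  | succ n ih =>
    rw [P_succ]
    have h1 : a n + 1 ≤ 2 ^ b := ha n
    calc P b a n + a n * 2 ^ (b * n) < 2 ^ (b * n) + a n * 2 ^ (b * n) := by omega
      _ = (a n + 1) * 2 ^ (b * n) := by ring
      _ ≤ 2 ^ b * 2 ^ (b * n) := Nat.mul_le_mul_right _ h1
      _ = 2 ^ (b * (n + 1)) := by rw [← pow_add]; congr 1; ring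

theorem P_mod {b : ℕ} {a : ℕ → ℕ} (ha : ∀ i, a i < 2 ^ b) (m n : ℕ) :
    P b a (m + n) % 2 ^ (b * m) = P b a m := by
  rw [P_add, Nat.add_mul_mod_self_right, Nat.mod_eq_of_lt (P_lt ha m)]

theorem P_div {b : ℕ} {a : ℕ → ℕ} (ha : ∀ i, a i < 2 ^ b) (m n : ℕ) :
    P b a (m + n) / 2 ^ (b * m) = P b (fun i => a (m + i)) n := by
  rw [P_add, Nat.add_mul_div_right _ _ (by positivity), Nat.div_eq_of_lt (P_lt ha m), zero_add]

theorem P_digit {b : ℕ} {a : ℕ → ℕ} (ha : ∀ i, a i < 2 ^ b) {n i : ℕ} (hi : i < n) :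
    P b a n / 2 ^ (b * i) % 2 ^ b = a i := by
  obtain ⟨k, rfl⟩ := Nat.exists_eq_add_of_lt hi
  have h1 : i + k + 1 = i + (1 + k) := by ring
  have h2 := P_mod (b := b) (a := fun j => a (i + j)) (fun j => ha _) 1 k
  rw [mul_one] at h2
  rw [h1, P_div ha, h2]
  simp [P]

/-- digit-wise reduction modulo `M`, divide and conquer -/
noncomputable def rdc (b M k : ℕ) : ℕ → ℕ :=
  Nat.rec (motive := fun _ => ℕ → ℕ) (fun z => Nat.mod z M)
    (fun k ih z => Nat.add (ih (Nat.mod z (Nat.pow 2 (Nat.mul b (Nat.pow 2 k)))))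
      (Nat.mul (ih (Nat.div z (Nat.pow 2 (Nat.mul b (Nat.pow 2 k)))))
        (Nat.pow 2 (Nat.mul b (Nat.pow 2 k))))) k

theorem rdc_zero (b M z : ℕ) : rdc b M 0 z = z % M := rfl

theorem rdc_succ (b M k z : ℕ) : rdc b M (k + 1) z = rdc b M k (z % 2 ^ (b * 2 ^ k)) +
    rdc b M k (z / 2 ^ (b * 2 ^ k)) * 2 ^ (b * 2 ^ k) := rfl

theorem rdc_P {b M : ℕ} (k : ℕ) : ∀ {a : ℕ → ℕ}, (∀ i, a i < 2 ^ b) →
    rdc b M k (P b a (2 ^ k)) = P b (fun i => a i % M) (2 ^ k) := by
  induction k with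
  | zero => intro a ha; rw [rdc_zero]; simp [P]
  | succ k ih =>
    intro a ha
    rw [rdc_succ, pow_succ, mul_two, P_mod ha, P_div ha, ih ha, ih (fun i => ha _), P_add]

/-- reduction of an arbitrary number: the lowest `2^K` digits, reduced modulo `M` -/
noncomputable def red (b M K z : ℕ) : ℕ := rdc b M K (Nat.mod z (Nat.pow 2 (Nat.mul b (Nat.pow 2 K))))

theorem exists_digits (b : ℕ) (n : ℕ) : ∀ z < 2 ^ (b * n), ∃ a : ℕ → ℕ, (∀ i, a i < 2 ^ b) ∧
    z = P b a n := by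
  induction n with
  | zero =>
    intro z hz
    exact ⟨fun _ => 0, fun _ => by positivity, by simpa [P] using hz⟩
  | succ n ih =>
    intro z hz
    obtain ⟨a, ha, h⟩ := ih (z % 2 ^ (b * n)) (Nat.mod_lt _ (by positivity))
    have h1 : z / 2 ^ (b * n) < 2 ^ b := by
      rw [Nat.div_lt_iff_lt_mul (by positivity), ← pow_add]
      convert hz using 2
      ring
    refine ⟨fun i => if i < n then a i else z / 2 ^ (b * n), fun i => ?_, ?_⟩
    · dsimp only
      split_ifs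
      · exact ha i
      · exact h1
    · rw [P_succ, if_neg (lt_irrefl n)]
      have h2 : P b (fun i => if i < n then a i else z / 2 ^ (b * n)) n = P b a n :=
        P_congr fun i hi => by rw [if_pos hi]
      rw [h2, ← h]
      exact (Nat.mod_add_div' z _).symm

/-- `x` packs `F` -/
def Rep (b M K x : ℕ) (F : (ZMod M)⟦X⟧) : Prop :=
  ∃ a : ℕ → ℕ, (∀ i, a i < M) ∧ x = P b a (2 ^ K) ∧ ∀ i < 2 ^ K, ((a i : ℕ) : ZMod M) = coeff i F

/-- `z` packs `F`, with unreduced digits -/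
def WRep (b M K z : ℕ) (F : (ZMod M)⟦X⟧) : Prop :=
  ∃ a : ℕ → ℕ, (∀ i, a i < 2 ^ b) ∧ z % 2 ^ (b * 2 ^ K) = P b a (2 ^ K) ∧
    ∀ i < 2 ^ K, ((a i : ℕ) : ZMod M) = coeff i F

theorem WRep.red {b M K z : ℕ} {F : (ZMod M)⟦X⟧} (hM : 0 < M) (h : WRep b M K z F) :
    Rep b M K (red b M K z) F := by
  obtain ⟨a, ha, hz, hF⟩ := h
  refine ⟨fun i => a i % M, fun i => Nat.mod_lt _ hM, ?_, fun i hi => ?_⟩
  · change rdc b M K (z % 2 ^ (b * 2 ^ K)) = _
    rw [hz, rdc_P K ha]
  · rw [← hF i hi]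
    simp

/-- every reduced number packs something -/
theorem exists_Rep {b M K : ℕ} (hM : 0 < M) (z : ℕ) :
    ∃ F : (ZMod M)⟦X⟧, Rep b M K (red b M K z) F := by
  obtain ⟨a, ha, h⟩ := exists_digits b (2 ^ K) (z % 2 ^ (b * 2 ^ K))
    (Nat.mod_lt _ (by positivity))
  refine ⟨mk fun i => ((a i : ℕ) : ZMod M), WRep.red hM ⟨a, ha, h, fun i _ => ?_⟩⟩
  rw [coeff_mk]

/-- the convolution of two digit sequences truncated at `n` -/
def conv (a c : ℕ → ℕ) (n s : ℕ) : ℕ :=
  ∑ p ∈ Finset.HasAntidiagonal.antidiagonal s, (if p.1 < n then a p.1 else 0) * (if p.2 < n then c p.2 else 0)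

theorem P_mul (b : ℕ) (a c : ℕ → ℕ) (n : ℕ) : P b a n * P b c n = P b (conv a c n) (n + n) := by
  classical
  -- polynomials
  let f : (ℕ → ℕ) → Polynomial ℕ := fun a => ∑ i ∈ Finset.range n, Polynomial.monomial i (a i)
  have h1 : ∀ a, (f a).eval (2 ^ b) = P b a n := by
    intro a
    simp only [f, Polynomial.eval_finsetSum, Polynomial.eval_monomial, P, ← pow_mul]
  have h2 : ∀ a i, (f a).coeff i = if i < n then a i else 0 := by
    intro a i
    simp only [f, Polynomial.finsetSum_coeff, Polynomial.coeff_monomial]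
    rw [Finset.sum_ite_eq' (Finset.range n) i a]
    simp
  rcases Nat.eq_zero_or_pos n with rfl | hn
  · simp [P]
  have h3 : ∀ a, (f a).natDegree ≤ n - 1 := by
    intro a
    refine Polynomial.natDegree_le_iff_coeff_eq_zero.2 fun i hi => ?_
    rw [h2, if_neg (by omega)]
  rw [← h1, ← h1, ← Polynomial.eval_mul, Polynomial.eval_eq_sum_range' (n := n + n)]
  · unfold P
    refine Finset.sum_congr rfl fun s _ => ?_
    rw [← pow_mul]
    congr 1
    rw [Polynomial.coeff_mul]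
    simp only [h2]
    rfl
  · have := Polynomial.natDegree_mul_le (p := f a) (q := f c)
    have h4 := h3 a
    have h5 := h3 c
    omega

theorem conv_lt {a c : ℕ → ℕ} {M n b : ℕ} (hn : 0 < n) (hM : 0 < M) (ha : ∀ i, a i < M)
    (hc : ∀ i, c i < M) (hb : n * (M * M) ≤ 2 ^ b) (s : ℕ) : conv a c n s < 2 ^ b := by
  classical
  -- at most `n` nonzero terms
  have h1 : conv a c n s = ∑ i ∈ Finset.range n, if i ≤ s then a i * (if s - i < n then c (s - i) else 0) else 0 := by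
    unfold conv
    rw [Finset.Nat.sum_antidiagonal_eq_sum_range_succ_mk]
    simp only
    have h2 : ∀ i ∈ Finset.range s.succ, (if i < n then a i else 0) * (if s - i < n then c (s - i) else 0) =
        if i < n then a i * (if s - i < n then c (s - i) else 0) else 0 := by
      intro i _
      split_ifs <;> simp
    rw [Finset.sum_congr rfl h2, ← Finset.sum_filter, ← Finset.sum_filter]
    refine Finset.sum_congr ?_ fun _ _ => rfl
    ext i
    simp only [Finset.mem_filter, Finset.mem_range]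
    omega
  rw [h1]
  refine lt_of_lt_of_le ?_ hb
  calc _ < ∑ i ∈ Finset.range n, M * M := by
        refine Finset.sum_lt_sum_of_nonempty (Finset.nonempty_range_iff.2 hn.ne') fun i _ => ?_
        have hMM : 0 < M * M := by positivity
        split_ifs with h3 h4
        · exact Nat.mul_lt_mul'' (ha i) (hc _)
        · rw [mul_zero]; exact hMM
        · exact hMM
    _ = n * (M * M) := by simp

theorem WRep_mul {b M K x y : ℕ} {F G : (ZMod M)⟦X⟧} (hM : 0 < M) (hb : 2 ^ K * (M * M) ≤ 2 ^ b)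
    (hx : Rep b M K x F) (hy : Rep b M K y G) : WRep b M K (Nat.mul x y) (F * G) := by
  obtain ⟨a, ha, rfl, hF⟩ := hx
  obtain ⟨c, hc, rfl, hG⟩ := hy
  refine ⟨conv a c (2 ^ K), conv_lt (by positivity) hM ha hc hb, ?_, fun s hs => ?_⟩
  · change (P b a (2 ^ K) * P b c (2 ^ K)) % _ = _
    rw [P_mul, P_mod (conv_lt (by positivity) hM ha hc hb)]
  · rw [coeff_mul, conv, Nat.cast_sum]
    refine Finset.sum_congr rfl fun p hp => ?_
    rw [Finset.HasAntidiagonal.mem_antidiagonal] at hp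
    rw [if_pos (by omega), if_pos (by omega), Nat.cast_mul, hF _ (by omega), hG _ (by omega)]

/-- linear combinations `u + c₁ x + c₂ y`, `u` a constant -/
theorem WRep_lin {b M K x y : ℕ} {F G : (ZMod M)⟦X⟧} (u c₁ c₂ : ℕ)
    (hb : u + (c₁ + c₂) * M ≤ 2 ^ b) (h0 : 0 < c₁ + c₂) (hM : 0 < M)
    (hx : Rep b M K x F) (hy : Rep b M K y G) :
    WRep b M K (Nat.add u (Nat.add (Nat.mul c₁ x) (Nat.mul c₂ y)))
      (C (u : ZMod M) + (C (c₁ : ZMod M) * F + C (c₂ : ZMod M) * G)) := by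
  obtain ⟨a, ha, rfl, hF⟩ := hx
  obtain ⟨c, hc, rfl, hG⟩ := hy
  have hlt : ∀ i, (if i = 0 then u else 0) + (c₁ * a i + c₂ * c i) < 2 ^ b := by
    intro i
    refine lt_of_lt_of_le ?_ hb
    have h1 : (if i = 0 then u else 0) ≤ u := by split_ifs <;> omega
    have h2 : c₁ * a i + c₂ * c i < (c₁ + c₂) * M := by
      have e1 : c₁ * a i ≤ c₁ * (M - 1) := Nat.mul_le_mul_left _ (by have := ha i; omega)
      have e2 : c₂ * c i ≤ c₂ * (M - 1) := Nat.mul_le_mul_left _ (by have := hc i; omega)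
      have e3 : c₁ * (M - 1) + c₂ * (M - 1) = (c₁ + c₂) * (M - 1) := by ring
      have e4 : (c₁ + c₂) * (M - 1) < (c₁ + c₂) * M :=
        Nat.mul_lt_mul_of_pos_left (by omega) h0
      omega
    omega
  refine ⟨fun i => (if i = 0 then u else 0) + (c₁ * a i + c₂ * c i), hlt, ?_, fun i hi => ?_⟩
  · change (u + (c₁ * P b a (2 ^ K) + c₂ * P b c (2 ^ K))) % _ = _
    have h3 : u + (c₁ * P b a (2 ^ K) + c₂ * P b c (2 ^ K)) =
        P b (fun i => (if i = 0 then u else 0) + (c₁ * a i + c₂ * c i)) (2 ^ K) := by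
      unfold P
      have h4 : u = ∑ i ∈ Finset.range (2 ^ K), (if i = 0 then u else 0) * 2 ^ (b * i) := by
        rw [Finset.sum_eq_single 0]
        · simp
        · intro j _ hj
          rw [if_neg hj, zero_mul]
        · intro h
          exact absurd (Finset.mem_range.2 (by positivity)) h
      nth_rewrite 1 [h4]
      rw [Finset.mul_sum, Finset.mul_sum, ← Finset.sum_add_distrib, ← Finset.sum_add_distrib]
      refine Finset.sum_congr rfl fun i _ => ?_
      ring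
    rw [h3, Nat.mod_eq_of_lt (P_lt hlt _)]
  · rw [map_add, map_add, coeff_C_mul, coeff_C_mul, ← hF i hi, ← hG i hi, coeff_C]
    push_cast
    rfl

/-- uniqueness -/
theorem Rep.coeff_eq {b M K x : ℕ} {F G : (ZMod M)⟦X⟧} (hb : M ≤ 2 ^ b) (h1 : Rep b M K x F)
    (h2 : Rep b M K x G) {i : ℕ} (hi : i < 2 ^ K) : coeff i F = coeff i G := by
  obtain ⟨a, ha, e1, hF⟩ := h1
  obtain ⟨c, hc, e2, hG⟩ := h2
  rw [← hF i hi, ← hG i hi, ← P_digit (fun j => lt_of_lt_of_le (ha j) hb) hi,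
    ← P_digit (fun j => lt_of_lt_of_le (hc j) hb) hi, ← e1, ← e2]

/-- reading off a coefficient -/
theorem Rep.digit {b M K x : ℕ} {F : (ZMod M)⟦X⟧} (hb : M ≤ 2 ^ b) (h1 : Rep b M K x F)
    {i : ℕ} (hi : i < 2 ^ K) :
    coeff i F = ((Nat.mod (Nat.div x (Nat.pow 2 (Nat.mul b i))) (Nat.pow 2 b) : ℕ) : ZMod M) := by
  obtain ⟨a, ha, e1, hF⟩ := h1
  rw [← hF i hi]
  have := P_digit (fun j => lt_of_lt_of_le (ha j) hb) hi
  rw [← e1] at this
  exact congrArg _ this.symm

theorem Rep_one {b M K : ℕ} (hM : 1 < M) : Rep b M K 1 (1 : (ZMod M)⟦X⟧) := by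
  refine ⟨fun i => if i = 0 then 1 else 0, fun i => ?_, ?_, fun i _ => ?_⟩
  · dsimp only
    split_ifs <;> omega
  · unfold P
    rw [Finset.sum_eq_single 0]
    · simp
    · intro j _ hj
      dsimp only
      rw [if_neg hj, zero_mul]
    · intro h
      exact absurd (Finset.mem_range.2 (by positivity)) h
  · rw [coeff_one]
    push_cast
    rfl

/-- divide and conquer sum `∑_{d < 2^k} f (lo + d)` -/
noncomputable def sdc (f : ℕ → ℕ) (k : ℕ) : ℕ → ℕ :=
  Nat.rec (motive := fun _ => ℕ → ℕ) f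
    (fun k ih lo => Nat.add (ih lo) (ih (Nat.add lo (Nat.pow 2 k)))) k

theorem sdc_eq (f : ℕ → ℕ) (k : ℕ) : ∀ lo, sdc f k lo = ∑ d ∈ Finset.range (2 ^ k), f (lo + d) := by
  induction k with
  | zero => intro lo; simp [sdc]
  | succ k ih =>
    intro lo
    change sdc f k lo + sdc f k (lo + 2 ^ k) = _
    rw [ih, ih, pow_succ, mul_two, Finset.sum_range_add]
    simp only [add_assoc]

/-- the packed series `∑_n (∑_{d ∣ n} g d) q^n` -/
noncomputable def sieve (g : ℕ → ℕ) (b K : ℕ) : ℕ :=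
  sdc (fun d => Nat.mul (g d) (Nat.mul (Nat.pow 2 (Nat.mul b d))
    (Nat.div (Nat.sub (Nat.pow 2 (Nat.mul (Nat.mul b d) (Nat.div (Nat.sub (Nat.pow 2 K) 1) d))) 1)
      (Nat.sub (Nat.pow 2 (Nat.mul b d)) 1)))) K 0

theorem sieve_term (b K d : ℕ) (hb : 0 < b) (hd : 0 < d) :
    2 ^ (b * d) * ((2 ^ ((b * d) * ((2 ^ K - 1) / d)) - 1) / (2 ^ (b * d) - 1)) =
      ∑ n ∈ Finset.range (2 ^ K), if n ≠ 0 ∧ d ∣ n then 2 ^ (b * n) else 0 := by
  classical
  have h2 : 2 ≤ 2 ^ (b * d) := by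
    calc 2 = 2 ^ 1 := rfl
      _ ≤ 2 ^ (b * d) := Nat.pow_le_pow_right (by norm_num) (Nat.mul_pos hb hd)
  rw [pow_mul 2 (b * d), ← Nat.geomSum_eq h2, Finset.mul_sum, ← Finset.sum_filter]
  refine Finset.sum_bij' (fun m _ => d * (m + 1)) (fun n _ => n / d - 1) ?_ ?_ ?_ ?_ ?_
  · intro m hm
    rw [Finset.mem_range] at hm
    rw [Finset.mem_filter, Finset.mem_range]
    have h3 : d * (m + 1) ≤ 2 ^ K - 1 := by
      rw [mul_comm]
      exact (Nat.le_div_iff_mul_le hd).1 hm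
    have h4 : 0 < 2 ^ K := by positivity
    refine ⟨by omega, ?_, Dvd.intro _ rfl⟩
    exact Nat.mul_ne_zero hd.ne' (Nat.succ_ne_zero m)
  · intro n hn
    rw [Finset.mem_filter, Finset.mem_range] at hn
    obtain ⟨h1, h3, k, rfl⟩ := hn
    rw [Nat.mul_div_cancel_left _ hd, Finset.mem_range]
    have hk : k ≠ 0 := by rintro rfl; simp at h3
    have : k ≤ (2 ^ K - 1) / d := by
      rw [Nat.le_div_iff_mul_le hd, mul_comm]
      omega
    omega
  · intro m _
    rw [Nat.mul_div_cancel_left _ hd, Nat.add_sub_cancel]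
  · intro n hn
    rw [Finset.mem_filter, Finset.mem_range] at hn
    obtain ⟨h1, h3, k, rfl⟩ := hn
    have hk : k ≠ 0 := by rintro rfl; simp at h3
    change d * (d * k / d - 1 + 1) = d * k
    rw [Nat.mul_div_cancel_left _ hd, Nat.sub_add_cancel (Nat.pos_of_ne_zero hk)]
  · intro m _
    rw [← pow_mul, ← pow_add]
    congr 1
    ring

theorem WRep_sieve {b M K : ℕ} (g : ℕ → ℕ) (hb : 0 < b) (hg0 : g 0 = 0)
    (hg : ∀ d < 2 ^ K, g d * 2 ^ K < 2 ^ b) :
    WRep b M K (sieve g b K) (mk fun n => ((∑ d ∈ n.divisors, g d : ℕ) : ZMod M)) := by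
  classical
  have h1 : sieve g b K = P b (fun n => if n < 2 ^ K then ∑ d ∈ n.divisors, g d else 0) (2 ^ K) := by
    unfold sieve
    rw [sdc_eq]
    simp only [zero_add]
    have h2 : ∀ d ∈ Finset.range (2 ^ K), Nat.mul (g d) (Nat.mul (Nat.pow 2 (Nat.mul b d))
        (Nat.div (Nat.sub (Nat.pow 2 (Nat.mul (Nat.mul b d) (Nat.div (Nat.sub (Nat.pow 2 K) 1) d))) 1)
        (Nat.sub (Nat.pow 2 (Nat.mul b d)) 1))) =
        ∑ n ∈ Finset.range (2 ^ K), if n ≠ 0 ∧ d ∣ n then g d * 2 ^ (b * n) else 0 := by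
      intro d _
      change g d * (2 ^ (b * d) * ((2 ^ ((b * d) * ((2 ^ K - 1) / d)) - 1) / (2 ^ (b * d) - 1))) = _
      rcases Nat.eq_zero_or_pos d with rfl | hd
      · rw [hg0]; simp
      · rw [sieve_term b K d hb hd, Finset.mul_sum]
        refine Finset.sum_congr rfl fun n _ => ?_
        rw [mul_ite, mul_zero]
    rw [Finset.sum_congr rfl h2, Finset.sum_comm]
    unfold P
    refine Finset.sum_congr rfl fun n hn => ?_
    rw [Finset.mem_range] at hn
    dsimp only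
    rw [if_pos hn, ← Finset.sum_filter, Finset.sum_mul]
    refine Finset.sum_congr ?_ fun _ _ => rfl
    ext d
    simp only [Finset.mem_filter, Finset.mem_range, Nat.mem_divisors]
    constructor
    · exact fun h => ⟨h.2.2, h.2.1⟩
    · intro h
      exact ⟨lt_of_le_of_lt (Nat.le_of_dvd (Nat.pos_of_ne_zero h.2) h.1) hn, h.2, h.1⟩
  have h3 : ∀ n, (if n < 2 ^ K then ∑ d ∈ n.divisors, g d else 0) < 2 ^ b := by
    intro n
    split_ifs with hn
    · rcases Nat.eq_zero_or_pos n with rfl | hn0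
      · simp
      · have hne : n.divisors.Nonempty := ⟨1, Nat.one_mem_divisors.2 hn0.ne'⟩
        obtain ⟨e, he, hmax⟩ := Finset.exists_max_image n.divisors g hne
        calc ∑ d ∈ n.divisors, g d ≤ n.divisors.card * g e := by
              rw [← smul_eq_mul]
              exact Finset.sum_le_card_nsmul _ _ _ hmax
          _ ≤ 2 ^ K * g e := Nat.mul_le_mul_right _ ((Nat.card_divisors_le_self n).trans hn.le)
          _ < 2 ^ b := by
              rw [mul_comm]
              exact hg e (lt_of_le_of_lt (Nat.divisor_le he) hn)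
    · positivity
  refine ⟨_, h3, ?_, fun i hi => ?_⟩
  · rw [h1, Nat.mod_eq_of_lt (P_lt h3 _)]
  · rw [coeff_mk, if_pos hi]

end Q279.Pack
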